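import Pool.Agent.W425.SM.Stmts

set_option autoImplicit false

/-! Project SM, part A: from the functional equation to the algebraic relation. -/

namespace Pool.Agent.W525.SM

open MvPolynomial Pool.Agent.H628R4.TZ Pool.Agent.H628R4.TP Pool.Agent.W425.SM

variable {r N : ℕ}

/-- exponent vector of the monomial `u` of a power of the sparse polynomial -/
noncomputable def Ex (v : Fin r → Fin N → ℕ) (u : Fin r → ℕ) : Fin N →₀ ℕ :=
  Finsupp.equivFunOnFinite.symm (fun i => ∑ j, u j * v j i)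

lemma Ex_apply (v : Fin r → Fin N → ℕ) (u : Fin r → ℕ) (i : Fin N) :
    Ex v u i = ∑ j, u j * v j i := by simp [Ex]

/-- shift vector -/
def Sh (v : Fin r → Fin N → ℕ) (c : Fin r → ℤ) : Fin N → ℤ := fun i => ∑ j, c j * (v j i : ℤ)

lemma ind_zero {v : Fin r → Fin N → ℕ} (hv : Ind v) (c : Fin r → ℤ) (h0 : ∑ j, c j = 0)
    (h1 : ∀ i, ∑ j, c j * (v j i : ℤ) = 0) : c = 0 := by
  have h := affineIndependent_iff.1 hv Finset.univ (fun j => (c j : ℚ)) (by exact_mod_cast h0)
    (by
      funext i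
      rw [Finset.sum_apply]
      simp only [Pi.smul_apply, smul_eq_mul, Pi.zero_apply]
      exact_mod_cast h1 i)
  funext j
  have := h j (Finset.mem_univ j)
  exact_mod_cast this

lemma Ex_inj {v : Fin r → Fin N → ℕ} (hv : Ind v) {u w : Fin r → ℕ} (hs : ∑ j, u j = ∑ j, w j)
    (h : Ex v u = Ex v w) : u = w := by
  have h2 := ind_zero hv (fun j => (u j : ℤ) - w j) (by
    rw [Finset.sum_sub_distrib, sub_eq_zero]
    exact_mod_cast hs) (by
    intro i
    have := DFunLike.congr_fun h i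
    rw [Ex_apply, Ex_apply] at this
    simp only [sub_mul]
    rw [Finset.sum_sub_distrib, sub_eq_zero]
    exact_mod_cast this)
  funext j
  have := congrFun h2 j
  simp only [Pi.zero_apply] at this
  omega

lemma Sh_inj {v : Fin r → Fin N → ℕ} (hv : Ind v) :
    Set.InjOn (Sh v) {c | ∑ j, c j = 1} := by
  intro c hc d hd h
  have h2 := ind_zero hv (fun j => c j - d j) (by
    rw [Finset.sum_sub_distrib, sub_eq_zero]
    exact hc.trans hd.symm) (by
    intro i
    have := congrFun h i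
    simp only [sub_mul]
    rw [Finset.sum_sub_distrib, sub_eq_zero]
    exact this)
  funext j
  have := congrFun h2 j
  simp only [Pi.zero_apply] at this
  omega

/-- the coefficient of the monomial `u` -/
noncomputable def cf (a : Fin r → ℂ) (u : Fin r → ℕ) : ℂ :=
  (Nat.multinomial Finset.univ u : ℂ) * ∏ j, a j ^ u j

lemma term_monomial (v : Fin r → Fin N → ℕ) (a : Fin r → ℂ) (u : Fin r → ℕ) :
    ∏ j, (C (a j) * ∏ i, X i ^ v j i : MvPolynomial (Fin N) ℂ) ^ u j =
      monomial (Ex v u) (∏ j, a j ^ u j) := by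
  rw [monomial_eq, Finsupp.prod_fintype _ _ (by simp)]
  simp only [mul_pow, Finset.prod_mul_distrib]
  congr 1
  · rw [map_prod]
    exact Finset.prod_congr rfl fun j _ => (map_pow _ _ _).symm
  · simp only [← Finset.prod_pow, ← pow_mul]
    rw [Finset.prod_comm]
    refine Finset.prod_congr rfl fun i _ => ?_
    rw [Finset.prod_pow_eq_pow_sum, Ex_apply]
    congr 1
    exact Finset.sum_congr rfl fun j _ => mul_comm _ _

lemma pow_expand (v : Fin r → Fin N → ℕ) (a : Fin r → ℂ) (n : ℕ) :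
    sparse v a ^ n = ∑ u ∈ Finset.piAntidiag Finset.univ n, monomial (Ex v u) (cf a u) := by
  unfold sparse
  rw [Finset.sum_pow_eq_sum_piAntidiag]
  refine Finset.sum_congr rfl fun u _ => ?_
  rw [term_monomial, cf, ← C_mul_monomial, map_natCast]

lemma mem_anti {n : ℕ} {u : Fin r → ℕ} :
    u ∈ Finset.piAntidiag (Finset.univ : Finset (Fin r)) n ↔ ∑ j, u j = n := by
  simp

lemma coeff_pow {v : Fin r → Fin N → ℕ} (hv : Ind v) (a : Fin r → ℂ) (u : Fin r → ℕ) :
    coeff (Ex v u) (sparse v a ^ (∑ j, u j)) = cf a u := by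
  rw [pow_expand, coeff_sum, Finset.sum_eq_single u]
  · rw [coeff_monomial, if_pos rfl]
  · intro w hw hne
    rw [coeff_monomial, if_neg fun h => hne (Ex_inj hv (mem_anti.1 hw) h)]
  · exact fun h => absurd (mem_anti.2 rfl) h

/-- `desc(X_j, t) / X_j` -/
noncomputable def rst (j : Fin r) (t : ℕ) : MvPolynomial (Fin r) ℂ :=
  C (t.factorial : ℂ) * cc j t

lemma eval_rst (u : Fin r → ℕ) (j : Fin r) (t : ℕ) (ht : 1 ≤ t) :
    (u j : ℂ) * eval (fun m => (u m : ℂ)) (rst j t) = ((u j).descFactorial t : ℂ) := by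
  unfold rst
  rw [map_mul, eval_C, mul_left_comm, eval_cc j t ht u]
  exact_mod_cast (Nat.descFactorial_eq_factorial_mul_choose (u j) t).symm

/-- the polynomial `(X_j + M)! / (X_j + c)!`, up to the factor of the relation -/
noncomputable def fq (M : ℕ) (j : Fin r) (c : ℤ) : MvPolynomial (Fin r) ℂ :=
  if c < 0 then rst j (-c).toNat
  else ∏ m ∈ Finset.range (M - c.toNat), (X j + C ((c.toNat + m + 1 : ℕ) : ℂ))

/-- the factor of the relation -/
noncomputable def ff (M : ℕ) (j : Fin r) (c : ℤ) : MvPolynomial (Fin r) ℂ :=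
  if c < 0 then X j * dm M j else 1

lemma eval_dm (u : Fin r → ℕ) (M : ℕ) (j : Fin r) :
    ((u j).factorial : ℂ) * eval (fun m => (u m : ℂ)) (dm M j) = ((u j + M).factorial : ℂ) := by
  unfold dm
  rw [map_prod]
  have h := Nat.factorial_mul_ascFactorial (u j) M
  rw [Nat.ascFactorial_eq_prod_range] at h
  rw [← h]
  push_cast
  congr 1
  refine Finset.prod_congr rfl fun m _ => ?_
  rw [map_add, eval_X, eval_C]
  push_cast
  ring

lemma eval_fc (u : Fin r → ℕ) (M : ℕ) (j : Fin r) (c : ℤ) (hM : c ≤ M)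
    (h : 0 ≤ (u j : ℤ) + c) :
    ((((u j : ℤ) + c).toNat).factorial : ℂ) *
      eval (fun m => (u m : ℂ)) (ff M j c * fq M j c) = ((u j + M).factorial : ℂ) := by
  unfold ff fq
  split_ifs with hc
  · obtain ⟨k, hk⟩ := Int.eq_ofNat_of_zero_le (show 0 ≤ -c by omega)
    have h1 : ((u j : ℤ) + c).toNat = u j - k := by omega
    have h2 : (-c).toNat = k := by omega
    have h3 : k ≤ u j := by omega
    rw [h1, h2, map_mul, map_mul, eval_X]
    have h4 := eval_rst u j k (by omega)
    have h5 := Nat.factorial_mul_descFactorial h3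
    have h6 : (((u j - k).factorial : ℕ) : ℂ) * ((u j).descFactorial k : ℂ) =
        ((u j).factorial : ℂ) := by exact_mod_cast h5
    rw [← eval_dm u M j, ← h6, ← h4]
    ring
  · obtain ⟨k, rfl⟩ := Int.eq_ofNat_of_zero_le (show 0 ≤ c by omega)
    have h1 : ((u j : ℤ) + (k : ℤ)).toNat = u j + k := by omega
    have h2 : ((k : ℤ)).toNat = k := by omega
    have h3 : k ≤ M := by omega
    rw [h1, h2, one_mul, map_prod]
    have h := Nat.factorial_mul_ascFactorial (u j + k) (M - k)
    rw [Nat.ascFactorial_eq_prod_range] at h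
    rw [show u j + M = u j + k + (M - k) by omega, ← h]
    push_cast
    congr 1
    refine Finset.prod_congr rfl fun m _ => ?_
    rw [map_add, eval_X, eval_C]
    push_cast
    ring

lemma eval_fc_zero (u : Fin r → ℕ) (M : ℕ) (j : Fin r) (c : ℤ)
    (h : (u j : ℤ) + c < 0) :
    eval (fun m => (u m : ℂ)) (ff M j c * fq M j c) = 0 := by
  have hc : c < 0 := by omega
  unfold ff fq
  rw [if_pos hc, if_pos hc, map_mul, map_mul, eval_X]
  have h4 := eval_rst u j (-c).toNat (by omega)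
  rw [Nat.descFactorial_eq_zero_iff_lt.2 (by omega)] at h4
  rw [mul_right_comm, h4]
  simp

/-- The numerical relation. -/
theorem num_rel {v : Fin r → Fin N → ℕ} (hv : Ind v) (a : Fin r → ℂ) (ha : ∀ j, a j ≠ 0)
    (b : Polynomial ℂ) (hb : IsBFunction (sparse v a) b) :
    ∃ (M : ℕ) (S : Finset (Fin r → ℤ)) (T : Finset ℕ)
      (q : ℕ → (Fin r → ℤ) → MvPolynomial (Fin N) ℂ),
      (∀ c ∈ S, ∑ j, c j = 1) ∧
      ∀ (u : Fin r → ℕ),
        b.eval ((∑ j, u j : ℕ) : ℂ) * ∏ j, eval (fun m => (u m : ℂ)) (dm M j) =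
          (((∑ j, u j : ℕ) : ℂ) + 1) * ∑ c ∈ S,
          (∏ j, a j ^ c j) *
          (∏ j, eval (fun m => (u m : ℂ)) (ff M j (c j) * fq M j (c j))) *
          (∏ i, (((∑ j, u j * v j i : ℕ) + Sh v c i).toNat.descFactorial
            (Sh v c i).toNat : ℂ)) *
          ∑ m ∈ T, ((∑ j, u j : ℕ) : ℂ) ^ m *
            eval (fun x => ((Ex v u x : ℕ) : ℂ) + ((Sh v c x : ℤ) : ℂ)) (q m c) := by
  classical
  obtain ⟨P, hP⟩ := hb
  choose Q hQf hQ using fun (T : weylS (Fin N)) =>
    Pool.Agent.H628R4.TP.act_weyl (T : Module.End ℂ (MvPolynomial (Fin N) ℂ)) T.2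
  have hfin : ({c : Fin r → ℤ | ∑ j, c j = 1 ∧
      ∃ m ∈ P.support, Q (P m) (Sh v c) ≠ 0} : Set _).Finite := by
    have h1 : ((⋃ m ∈ P.support, ({c : Fin r → ℤ | ∑ j, c j = 1} ∩
        (Sh v) ⁻¹' Function.support (Q (P m)))) : Set _).Finite :=
      Set.Finite.biUnion P.support.finite_toSet fun m _ => by
        rw [Set.inter_comm]
        exact Set.Finite.of_finite_image (((hQf (P m))).subset (by
          rintro _ ⟨c, hc, rfl⟩
          exact hc.1)) ((Sh_inj hv).mono Set.inter_subset_right)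
    refine h1.subset fun c hc => ?_
    obtain ⟨h0, m, hm, hq⟩ := hc
    simp only [Set.mem_iUnion]
    exact ⟨m, hm, h0, hq⟩
  obtain ⟨M, hM⟩ : ∃ M : ℕ, ∀ c ∈ hfin.toFinset, ∀ j, c j ≤ M := by
    refine ⟨∑ c ∈ hfin.toFinset, ∑ j, (c j).toNat, fun c hc j => ?_⟩
    have h1 : (c j).toNat ≤ ∑ j, (c j).toNat :=
      Finset.single_le_sum (f := fun j => (c j).toNat) (fun _ _ => Nat.zero_le _)
        (Finset.mem_univ j)
    have h2 : ∑ j, (c j).toNat ≤ ∑ c ∈ hfin.toFinset, ∑ j, (c j).toNat :=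
      Finset.single_le_sum (f := fun c : Fin r → ℤ => ∑ j, (c j).toNat)
        (fun _ _ => Nat.zero_le _) hc
    omega
  refine ⟨M, hfin.toFinset, P.support, fun m c => Q (P m) (Sh v c), fun c hc => ?_,
    fun u => ?_⟩
  · exact ((Set.Finite.mem_toFinset hfin).1 hc).1
  set n := ∑ j, u j with hn
  have h1 := congrArg (coeff (Ex v u)) (hP n)
  rw [coeff_C_mul, hn, coeff_pow hv a u, ← hn, Finsupp.sum, coeff_sum] at h1
  -- the coefficient for the shift
  set F : (Fin r → ℕ) → ℂ := fun γ =>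
    cf a γ * ∑ m ∈ P.support, (n : ℂ) ^ m *
      (eval (fun x => ((Ex v γ x : ℕ) : ℂ)) (Q (P m) (Sh v fun j => (γ j : ℤ) - u j)) *
      ∏ x, ((Ex v γ x).descFactorial (Sh v (fun j => (γ j : ℤ) - u j) x).toNat : ℂ)) with hF
  have hsh : ∀ γ : Fin r → ℕ, ∀ x, ((Ex v γ x : ℕ) : ℤ) =
      (Ex v u x : ℕ) + Sh v (fun j => (γ j : ℤ) - u j) x := by
    intro γ x
    rw [Ex_apply, Ex_apply, Sh]
    push_cast
    rw [← Finset.sum_add_distrib]
    exact Finset.sum_congr rfl fun j _ => by ring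
  have h2 : b.eval (n : ℂ) * cf a u = ∑ γ ∈ Finset.piAntidiag Finset.univ (n+1), F γ := by
    rw [h1]
    have h3 : ∀ m ∈ P.support, coeff (Ex v u) (((n : ℂ) ^ m) •
        ((P m : weylS (Fin N)) : Module.End ℂ _) (sparse v a ^ (n+1))) =
        ∑ γ ∈ Finset.piAntidiag Finset.univ (n+1), (n : ℂ) ^ m * (cf a γ *
        (eval (fun x => ((Ex v γ x : ℕ) : ℂ)) (Q (P m) (Sh v fun j => (γ j : ℤ) - u j)) *
        ∏ x, ((Ex v γ x).descFactorial
          (Sh v (fun j => (γ j : ℤ) - u j) x).toNat : ℂ))) := by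
      intro m _
      rw [coeff_smul, smul_eq_mul, pow_expand, map_sum, coeff_sum, Finset.mul_sum]
      refine Finset.sum_congr rfl fun γ _ => ?_
      congr 1
      have h4 : (monomial (Ex v γ) (cf a γ) : MvPolynomial (Fin N) ℂ) =
          (cf a γ) • monomial (Ex v γ) 1 := by
        rw [smul_monomial, smul_eq_mul, mul_one]
      rw [h4, map_smul, coeff_smul, smul_eq_mul, hQ (P m) _ _ _ (hsh γ)]
    rw [Finset.sum_congr rfl h3, Finset.sum_comm]
    refine Finset.sum_congr rfl fun γ _ => ?_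
    rw [hF]
    simp only [Finset.mul_sum]
    exact Finset.sum_congr rfl fun m _ => by ring
  -- reindexing
  have h5 : ∑ γ ∈ Finset.piAntidiag Finset.univ (n+1), F γ = ∑ c ∈ hfin.toFinset,
      if ∀ j, 0 ≤ (u j : ℤ) + c j then F (fun j => ((u j : ℤ) + c j).toNat) else 0 := by
    rw [← Finset.sum_filter]
    have h6 : ∑ γ ∈ Finset.piAntidiag Finset.univ (n+1), F γ =
        ∑ γ ∈ (Finset.piAntidiag Finset.univ (n+1)).filter
          (fun γ => (fun j => (γ j : ℤ) - u j) ∈ hfin.toFinset), F γ := by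
      rw [Finset.sum_filter_of_ne]
      intro γ hγ hne
      rw [Set.Finite.mem_toFinset]
      refine ⟨?_, ?_⟩
      · rw [Finset.sum_sub_distrib]
        have h7 := mem_anti.1 hγ
        rw [← Nat.cast_sum, ← Nat.cast_sum, h7, ← hn]
        push_cast
        ring
      · by_contra hno
        push Not at hno
        apply hne
        rw [hF]
        simp only
        rw [Finset.sum_eq_zero, mul_zero]
        intro m hm
        rw [hno m hm]
        simp
    rw [h6]
    refine Finset.sum_bij' (fun γ _ => fun j => (γ j : ℤ) - u j)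
      (fun c _ => fun j => ((u j : ℤ) + c j).toNat) ?_ ?_ ?_ ?_ ?_
    · intro γ hγ
      rw [Finset.mem_filter] at hγ ⊢
      refine ⟨hγ.2, fun j => ?_⟩
      show 0 ≤ (u j : ℤ) + ((γ j : ℤ) - u j)
      omega
    · intro c hc
      rw [Finset.mem_filter] at hc ⊢
      have h9 := ((Set.Finite.mem_toFinset hfin).1 hc.1).1
      have h10 : ∀ j, ((((u j : ℤ) + c j).toNat : ℕ) : ℤ) = (u j : ℤ) + c j :=
        fun j => Int.toNat_of_nonneg (hc.2 j)
      refine ⟨mem_anti.2 ?_, ?_⟩
      · have : ((∑ j, ((u j : ℤ) + c j).toNat : ℕ) : ℤ) = ((n + 1 : ℕ) : ℤ) := by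
          rw [Nat.cast_sum, Finset.sum_congr rfl fun j _ => h10 j, Finset.sum_add_distrib,
            h9, ← Nat.cast_sum, ← hn]
          push_cast
          ring
        exact_mod_cast this
      · have : (fun j => ((((u j : ℤ) + c j).toNat : ℕ) : ℤ) - u j) = c := by
          funext j
          rw [h10]
          ring
        rw [this]
        exact hc.1
    · intro γ _
      funext j
      simp
    · intro c hc
      rw [Finset.mem_filter] at hc
      funext j
      have := Int.toNat_of_nonneg (hc.2 j)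
      simp only
      omega
    · intro γ _
      congr 1
      funext j
      simp
  -- clear the factorials
  have hmu : ((n.factorial : ℕ) : ℂ) = (∏ j, ((u j).factorial : ℂ)) *
      (Nat.multinomial Finset.univ u : ℂ) := by
    have := Nat.multinomial_spec Finset.univ u
    rw [← hn] at this
    rw [← this]
    push_cast
    ring
  have hn0 : ((n.factorial : ℂ)) ≠ 0 := by exact_mod_cast Nat.factorial_ne_zero _
  have ha0 : (∏ j, a j ^ u j) ≠ 0 :=
    Finset.prod_ne_zero_iff.2 fun j _ => pow_ne_zero _ (ha j)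
  have h12 : ((n + 1).factorial : ℂ) = ((n : ℂ) + 1) * (n.factorial : ℂ) := by
    rw [Nat.factorial_succ]; push_cast; ring
  have h13 : (∏ j, eval (fun m => (u m : ℂ)) (dm M j)) * ((n.factorial : ℂ) * ∏ j, a j ^ u j) =
      (∏ j, ((u j + M).factorial : ℂ)) * cf a u := by
    rw [hmu, cf, ← Finset.prod_congr rfl fun j _ => eval_dm u M j, Finset.prod_mul_distrib]
    ring
  refine mul_right_cancel₀ (mul_ne_zero hn0 ha0) ?_
  rw [mul_assoc, h13, mul_left_comm, h2, h5, Finset.mul_sum, Finset.mul_sum, Finset.sum_mul]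
  refine Finset.sum_congr rfl fun c hc => ?_
  split_ifs with hpos
  swap
  · push Not at hpos
    obtain ⟨j, hj⟩ := hpos
    have hz : ∏ j, eval (fun m => (u m : ℂ)) (ff M j (c j) * fq M j (c j)) = 0 :=
      Finset.prod_eq_zero (Finset.mem_univ j) (eval_fc_zero u M j (c j) hj)
    rw [hz]
    simp
  have h9 := ((Set.Finite.mem_toFinset hfin).1 hc).1
  have h10 : ∀ j, ((((u j : ℤ) + c j).toNat : ℕ) : ℤ) = (u j : ℤ) + c j :=
    fun j => Int.toNat_of_nonneg (hpos j)
  set γ : Fin r → ℕ := fun j => ((u j : ℤ) + c j).toNat with hγ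
  have hc' : (fun j => (γ j : ℤ) - u j) = c := by
    funext j
    rw [hγ]
    simp only
    rw [h10]
    ring
  have hγS : ∑ j, γ j = n + 1 := by
    have : ((∑ j, γ j : ℕ) : ℤ) = ((n + 1 : ℕ) : ℤ) := by
      rw [Nat.cast_sum, Finset.sum_congr rfl fun j _ => h10 j, Finset.sum_add_distrib,
        h9, ← Nat.cast_sum, ← hn]
      push_cast
      ring
    exact_mod_cast this
  have hshc := hsh γ
  rw [hc'] at hshc
  rw [hF]
  simp only
  rw [hc']
  have h14 : ∀ x, ((Ex v γ x : ℕ) : ℂ) = ((Ex v u x : ℕ) : ℂ) + ((Sh v c x : ℤ) : ℂ) := by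
    intro x
    exact_mod_cast hshc x
  simp only [h14]
  have h15 : ∏ x, ((Ex v γ x).descFactorial (Sh v c x).toNat : ℂ) =
      ∏ i, (((∑ j, u j * v j i : ℕ) + Sh v c i).toNat.descFactorial
            (Sh v c i).toNat : ℂ) := by
    refine Finset.prod_congr rfl fun i _ => ?_
    have h16 := hshc i
    rw [Ex_apply v u] at h16
    have h17 : Ex v γ i = (((∑ j, u j * v j i : ℕ) : ℤ) + Sh v c i).toNat := by omega
    rw [h17]
  have h18 : (∏ j, ((u j + M).factorial : ℂ)) = (∏ j, ((γ j).factorial : ℂ)) *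
      ∏ j, eval (fun m => (u m : ℂ)) (ff M j (c j) * fq M j (c j)) := by
    rw [← Finset.prod_mul_distrib]
    exact (Finset.prod_congr rfl fun j _ => eval_fc u M j (c j) (hM c hc j) (hpos j)).symm
  have h19 : ((((n+1).factorial : ℕ)) : ℂ) = (∏ j, ((γ j).factorial : ℂ)) *
      (Nat.multinomial Finset.univ γ : ℂ) := by
    have := Nat.multinomial_spec Finset.univ γ
    rw [hγS] at this
    rw [← this]
    push_cast
    ring
  have h20 : ∏ j, a j ^ γ j = (∏ j, a j ^ c j) * ∏ j, a j ^ u j := by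
    rw [← Finset.prod_mul_distrib]
    refine Finset.prod_congr rfl fun j _ => ?_
    rw [← zpow_natCast, h10 j, add_comm, zpow_add₀ (ha j), zpow_natCast]
  rw [h15, h18, cf, h20]
  rw [h12] at h19
  simp only [Finset.mul_sum]
  rw [Finset.sum_mul]
  refine Finset.sum_congr rfl fun m _ => ?_
  linear_combination (-(∏ j, eval (fun m => (u m : ℂ)) (ff M j (c j) * fq M j (c j))) *
    (∏ j, a j ^ c j) * (∏ j, a j ^ u j) * (n : ℂ) ^ m *
    eval (fun x => ((Ex v u x : ℕ) : ℂ) + ((Sh v c x : ℤ) : ℂ)) (Q (P m) (Sh v c)) *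
    ∏ i, (((∑ j, u j * v j i : ℕ) + Sh v c i).toNat.descFactorial
            (Sh v c i).toNat : ℂ)) * h19

lemma usum (v : Fin r → Fin N → ℕ) (u : Fin r → ℕ) (i : Fin N) :
    ∑ j, v j i * u j = ∑ j, u j * v j i := Finset.sum_congr rfl fun j _ => mul_comm _ _

/-- the relation before the division by `X + 1` -/
theorem pre_rel {v : Fin r → Fin N → ℕ} (hv : Ind v) (a : Fin r → ℂ) (ha : ∀ j, a j ≠ 0)
    (b : Polynomial ℂ) (hb : IsBFunction (sparse v a) b) :
    ∃ (M : ℕ) (Cs : Finset (Fin r → ℤ)) (q : (Fin r → ℤ) → MvPolynomial (Fin r) ℂ),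
    (∀ c ∈ Cs, ∑ j, c j = 1) ∧
    Polynomial.aeval (∑ j, X j : MvPolynomial (Fin r) ℂ) b * ∏ j, dm M j =
      (∑ j, X j + 1) *
      ∑ c ∈ Cs, (∏ i ∈ Bc v c, el v i) * ((∏ j, if c j < 0 then X j * dm M j else 1) * q c) := by
  classical
  obtain ⟨M, S, T, q, hS, hq⟩ := num_rel hv a ha b hb
  set σ : MvPolynomial (Fin r) ℂ := ∑ j, X j with hσ
  set gx : (Fin r → ℤ) → (Fin N) → MvPolynomial (Fin r) ℂ := fun c i =>
    el v i - 1 + C ((Sh v c i : ℤ) : ℂ) with hgx
  set qt : (Fin r → ℤ) → MvPolynomial (Fin r) ℂ := fun c =>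
    C (∏ j, a j ^ c j) * (∏ j, fq M j (c j)) *
      (∏ i ∈ Bc v c, dd v i (Sh v c i).toNat) *
      ∑ m ∈ T, σ ^ m * aeval (gx c) (q m c) with hqt
  refine ⟨M, S, qt, hS, ?_⟩
  refine funext_set (fun _ => Set.range (Nat.cast : ℕ → ℂ))
    (fun _ => Set.infinite_range_of_injective Nat.cast_injective) fun x hx => ?_
  choose u hu using fun j => hx j (Set.mem_univ j)
  obtain rfl : x = fun j => (u j : ℂ) := funext fun j => (hu j).symm
  have hσe : eval (fun j => (u j : ℂ)) σ = ((∑ m, u m : ℕ) : ℂ) := by simp [hσ]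
  rw [map_mul, eval_paeval, hσe, map_prod, hq u, map_mul, map_add, hσe, map_one, map_sum]
  congr 1
  refine Finset.sum_congr rfl fun c hc => ?_
  have hA : eval (fun j => (u j : ℂ)) (∏ j, if c j < 0 then
        (X j * dm M j : MvPolynomial (Fin r) ℂ) else 1) *
        eval (fun j => (u j : ℂ)) (∏ j, fq M j (c j)) =
        ∏ j, eval (fun m => (u m : ℂ)) (ff M j (c j) * fq M j (c j)) := by
    simp only [map_prod, ← Finset.prod_mul_distrib, map_mul]
    rfl
  have hB : eval (fun j => (u j : ℂ)) (∏ i ∈ Bc v c, el v i) *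
        eval (fun j => (u j : ℂ)) (∏ i ∈ Bc v c, dd v i (Sh v c i).toNat) =
        ∏ i, (((∑ j, u j * v j i : ℕ) + Sh v c i).toNat.descFactorial
            (Sh v c i).toNat : ℂ) := by
    rw [← Finset.prod_subset (Finset.subset_univ (Bc v c))]
    · rw [map_prod, map_prod, ← Finset.prod_mul_distrib]
      refine Finset.prod_congr rfl fun i hi => ?_
      have h10 : 0 < Sh v c i := by simpa [Bc, Sh] using hi
      rw [eval_dd _ _ _ (by omega), usum]
      have h11 : (((∑ j, u j * v j i : ℕ) : ℤ) + Sh v c i).toNat =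
          ∑ j, u j * v j i + (Sh v c i).toNat := by omega
      rw [h11]
    · intro i _ hi
      have h10 : ¬ 0 < Sh v c i := by simpa [Bc, Sh] using hi
      have : (Sh v c i).toNat = 0 := by omega
      rw [this]; simp
  have hC : eval (fun j => (u j : ℂ)) (∑ m ∈ T, σ ^ m * aeval (gx c) (q m c)) =
        ∑ m ∈ T, ((∑ m, u m : ℕ) : ℂ) ^ m *
          eval (fun x => ((Ex v u x : ℕ) : ℂ) + ((Sh v c x : ℤ) : ℂ)) (q m c) := by
    rw [map_sum]
    refine Finset.sum_congr rfl fun m _ => ?_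
    rw [map_mul, map_pow, hσe, eval_maeval]
    congr 3
    funext x
    rw [hgx]
    simp only [map_add, map_sub, map_one, eval_C]
    rw [eval_el, usum, Ex_apply]
    push_cast
    ring
  rw [← hA, ← hB, ← hC, hqt]
  simp only [map_mul, eval_C]
  ring

theorem taskA : TaskA := by
  intro r N v a b hr hv ha hb
  classical
  obtain ⟨M, Cs, q, hc, hrel⟩ := pre_rel hv a ha b hb
  set σ : MvPolynomial (Fin r) ℂ := ∑ j, X j with hσ
  set G : MvPolynomial (Fin r) ℂ := ∑ c ∈ Cs, (∏ i ∈ Bc v c, el v i) *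
    ((∏ j, if c j < 0 then X j * dm M j else 1) * q c) with hG
  -- the point
  set j0 : Fin r := ⟨0, by omega⟩ with hj0
  set j1 : Fin r := ⟨1, by omega⟩ with hj1
  have h01 : j0 ≠ j1 := by
    rw [hj0, hj1]
    intro h
    have := congrArg Fin.val h
    simp at this
  set x : Fin r → ℂ := fun j => if j = j0 then 1/2 else if j = j1 then -3/2 else 0 with hx
  have hσx : eval x σ = -1 := by
    rw [hσ, map_sum]
    simp only [eval_X]
    have : ∀ j, x j = (if j = j0 then (1/2 : ℂ) else 0) + (if j = j1 then (-3/2 : ℂ) else 0) := by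
      intro j
      rw [hx]
      by_cases h1 : j = j0
      · subst h1; simp [h01]
      · simp [h1]
    simp only [this]
    rw [Finset.sum_add_distrib, Finset.sum_ite_eq', Finset.sum_ite_eq']
    simp
    norm_num
  have hdx : eval x (∏ j, dm M j) ≠ 0 := by
    rw [map_prod]
    refine Finset.prod_ne_zero_iff.2 fun j _ => ?_
    unfold dm
    rw [map_prod]
    refine Finset.prod_ne_zero_iff.2 fun m _ => ?_
    rw [map_add, eval_X, eval_C, hx]
    simp only
    split_ifs
    · intro h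
      have h2 : ((3 + 2 * m : ℕ) : ℂ) = 0 := by
        push_cast at h ⊢
        linear_combination 2 * h
      have : 3 + 2 * m = 0 := by exact_mod_cast h2
      omega
    · intro h
      have h2 : ((2 * m : ℕ) : ℂ) = ((1 : ℕ) : ℂ) := by
        push_cast at h ⊢
        linear_combination 2 * h
      have : 2 * m = 1 := by exact_mod_cast h2
      omega
    · rw [zero_add]
      exact_mod_cast Nat.succ_ne_zero m
  have hroot : b.eval (-1) = 0 := by
    have h1 := congrArg (eval x) hrel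
    rw [map_mul, eval_paeval, hσx, map_mul, map_add, hσx, map_one, neg_add_cancel, zero_mul] at h1
    exact (mul_eq_zero.1 h1).resolve_right hdx
  obtain ⟨p, hp⟩ := Polynomial.dvd_iff_isRoot.2 (show b.IsRoot (-1) from hroot)
  have hp' : b = (Polynomial.X + 1) * p := by
    rw [hp]
    congr 1
    simp
  refine ⟨p, hp', M, Cs, q, hc, ?_⟩
  have h3 : (σ + 1) ≠ 0 := by
    intro h
    have h4 := congrArg (eval (0 : Fin r → ℂ)) h
    rw [map_add, map_one, map_zero, hσ, map_sum] at h4
    simp at h4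
  refine mul_left_cancel₀ h3 ?_
  rw [← hrel, hp', map_mul, map_add, Polynomial.aeval_X, map_one]
  ring

end Pool.Agent.W525.SM
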